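import Pool.Agent.Helper75.GR.Energy
import Pool.Agent.Helper35.GR.LCalc2

/-! # P9a: interior estimate for the third derivatives (MP_114a94_gt) -/

set_option autoImplicit false

open scoped ContDiff Topology NNReal
open Set Filter MeasureTheory

namespace Pool.Agent.GR

open Pool.Agent.Helper25.GrimReaper

variable {n : ℕ}

/-! ### Algebra -/

lemma P9a_poly (k1 k2 k3 δ : ℝ) (h1 : 0 ≤ k1) (h2 : 0 ≤ k2) (h3 : 0 ≤ k3) (hδ : 0 < δ) :
    ∃ C : ℝ, 0 ≤ C ∧ ∀ a : ℝ, 0 ≤ a → k1 * a + k2 * a ^ 2 + k3 * a ^ 3 ≤ δ * a ^ 4 + C := by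
  set X : ℝ := 1 + (k1 + k2 + k3) / δ with hX
  have hX1 : 1 ≤ X := by
    have : 0 ≤ (k1 + k2 + k3) / δ := by positivity
    linarith
  refine ⟨k1 * X + k2 * X ^ 2 + k3 * X ^ 3, by positivity, fun a ha => ?_⟩
  rcases le_total a X with h | h
  · have e1 : k1 * a ≤ k1 * X := mul_le_mul_of_nonneg_left h h1
    have e2 : k2 * a ^ 2 ≤ k2 * X ^ 2 := mul_le_mul_of_nonneg_left (pow_le_pow_left₀ ha h 2) h2
    have e3 : k3 * a ^ 3 ≤ k3 * X ^ 3 := mul_le_mul_of_nonneg_left (pow_le_pow_left₀ ha h 3) h3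
    have e4 : 0 ≤ δ * a ^ 4 := by positivity
    linarith
  · have ha1 : 1 ≤ a := hX1.trans h
    have e1 : k1 * a ≤ k1 * a ^ 3 := mul_le_mul_of_nonneg_left (by nlinarith [sq_nonneg (a - 1)]) h1
    have e2 : k2 * a ^ 2 ≤ k2 * a ^ 3 := mul_le_mul_of_nonneg_left (by nlinarith [sq_nonneg a]) h2
    have e3 : (k1 + k2 + k3) ≤ δ * a := by
      have : (k1 + k2 + k3) / δ ≤ a := by linarith
      rw [div_le_iff₀ hδ] at this
      linarith
    have e4 : (k1 + k2 + k3) * a ^ 3 ≤ δ * a * a ^ 3 :=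
      mul_le_mul_of_nonneg_right e3 (by positivity)
    have e5 : 0 ≤ k1 * X + k2 * X ^ 2 + k3 * X ^ 3 := by positivity
    have e6 : δ * a * a ^ 3 = δ * a ^ 4 := by ring
    nlinarith

lemma P9a_algebra (lam C1 C2 C3 K : ℝ) (hlam : 0 < lam) (hC1 : 0 ≤ C1) (hC2 : 0 ≤ C2)
    (_hC3 : 0 ≤ C3) (hK : 0 ≤ K) : ∃ A : ℝ, 1 ≤ A ∧ ∃ c : ℝ, 0 < c ∧ ∃ C : ℝ, 0 ≤ C ∧
      ∀ S2 a b l2 l3 G : ℝ, 0 ≤ S2 → S2 ≤ K → 0 ≤ a → 0 ≤ b →
        l2 ≤ -2 * lam * a ^ 2 + C1 * (1 + a) →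
        l3 ≤ -2 * lam * b ^ 2 + C2 * (a * (1 + a ^ 2 + b)) →
        |G| ≤ C3 * (a ^ 2 * b) →
        (A + S2) * l3 + a ^ 2 * l2 - 2 * G ≤ -c * ((A + S2) * a ^ 2) ^ 2 + C := by
  set A : ℝ := 1 + K + 4 * C3 ^ 2 / lam ^ 2 with hA
  have hA1 : 1 ≤ A := by
    have : 0 ≤ 4 * C3 ^ 2 / lam ^ 2 := by positivity
    linarith
  have hAK : K ≤ A := by
    have : 0 ≤ 4 * C3 ^ 2 / lam ^ 2 := by positivity
    linarith
  have hAC : 4 * C3 ^ 2 ≤ A * lam ^ 2 := by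
    have h1 : 4 * C3 ^ 2 / lam ^ 2 ≤ A := by linarith
    rwa [div_le_iff₀ (by positivity)] at h1
  have hA0 : 0 < A := by linarith
  obtain ⟨C, hC, hC'⟩ := P9a_poly (2 * A * C2) (C1 + 2 * A * C2 ^ 2 / lam) (2 * A * C2 + C1)
    (lam / 2) (by positivity) (by positivity) (by positivity) (by positivity)
  refine ⟨A, hA1, lam / (4 * A ^ 2), by positivity, C, hC, ?_⟩
  intro S2 a b l2 l3 G hS2 hS2K ha hb hl2 hl3 hG
  -- first term
  have e1 : (A + S2) * l3 ≤ (A + S2) * (-2 * lam * b ^ 2 + C2 * (a * (1 + a ^ 2 + b))) :=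
    mul_le_mul_of_nonneg_left hl3 (by linarith)
  have e2 : A * (2 * lam * b ^ 2) ≤ (A + S2) * (2 * lam * b ^ 2) :=
    mul_le_mul_of_nonneg_right (by linarith) (by positivity)
  have e3 : (A + S2) * (C2 * (a * (1 + a ^ 2 + b))) ≤ (2 * A) * (C2 * (a * (1 + a ^ 2 + b))) :=
    mul_le_mul_of_nonneg_right (by linarith) (by positivity)
  have e4 : a ^ 2 * l2 ≤ a ^ 2 * (-2 * lam * a ^ 2 + C1 * (1 + a)) :=
    mul_le_mul_of_nonneg_left hl2 (by positivity)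
  have e5 : -2 * G ≤ 2 * (C3 * (a ^ 2 * b)) := by
    have := neg_abs_le G
    linarith
  -- Young inequalities
  have e6 : 2 * (C3 * (a ^ 2 * b)) ≤ lam * A / 2 * b ^ 2 + lam / 2 * a ^ 4 := by
    have h1 : 0 ≤ (lam * A * b - 2 * C3 * a ^ 2) ^ 2 := sq_nonneg _
    have h2 : 4 * C3 ^ 2 * a ^ 4 ≤ A * lam ^ 2 * a ^ 4 :=
      mul_le_mul_of_nonneg_right hAC (by positivity)
    have h3 : lam * A * (2 * (2 * (C3 * (a ^ 2 * b)))) ≤
        lam * A * (2 * (lam * A / 2 * b ^ 2 + lam / 2 * a ^ 4)) := by nlinarith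
    have h4 : 0 < lam * A := by positivity
    have h5 := le_of_mul_le_mul_left h3 h4
    linarith
  have e7 : 2 * A * (C2 * (a * b)) ≤ lam * A / 2 * b ^ 2 + 2 * A * C2 ^ 2 / lam * a ^ 2 := by
    have h1 : 0 ≤ (lam * b - 2 * C2 * a) ^ 2 / lam := by positivity
    have h2 : (lam * b - 2 * C2 * a) ^ 2 / lam =
        lam * b ^ 2 - 4 * C2 * a * b + 4 * C2 ^ 2 * a ^ 2 / lam := by
      field_simp
      ring
    have h3 : 0 ≤ A / 2 * ((lam * b - 2 * C2 * a) ^ 2 / lam) := by positivity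
    rw [h2] at h3
    have h4 : A / 2 * (lam * b ^ 2 - 4 * C2 * a * b + 4 * C2 ^ 2 * a ^ 2 / lam) =
        lam * A / 2 * b ^ 2 + 2 * A * C2 ^ 2 / lam * a ^ 2 - 2 * A * (C2 * (a * b)) := by
      ring
    linarith
  have e8 := hC' a ha
  -- final
  have e9 : ((A + S2) * a ^ 2) ^ 2 ≤ 4 * A ^ 2 * a ^ 4 := by
    have h1 : (A + S2) * a ^ 2 ≤ 2 * A * a ^ 2 :=
      mul_le_mul_of_nonneg_right (by linarith) (by positivity)
    have h2 : 0 ≤ (A + S2) * a ^ 2 := mul_nonneg (by linarith) (by positivity)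
    calc ((A + S2) * a ^ 2) ^ 2 ≤ (2 * A * a ^ 2) ^ 2 := pow_le_pow_left₀ h2 h1 2
      _ = 4 * A ^ 2 * a ^ 4 := by ring
  have e10 : lam / (4 * A ^ 2) * ((A + S2) * a ^ 2) ^ 2 ≤ lam * a ^ 4 := by
    calc lam / (4 * A ^ 2) * ((A + S2) * a ^ 2) ^ 2 ≤ lam / (4 * A ^ 2) * (4 * A ^ 2 * a ^ 4) :=
          mul_le_mul_of_nonneg_left e9 (by positivity)
      _ = lam * a ^ 4 := by field_simp
  have e11 : (A + S2) * (-2 * lam * b ^ 2 + C2 * (a * (1 + a ^ 2 + b))) =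
      -((A + S2) * (2 * lam * b ^ 2)) + (A + S2) * (C2 * (a * (1 + a ^ 2 + b))) := by ring
  have e12 : (2 * A) * (C2 * (a * (1 + a ^ 2 + b))) =
      2 * A * C2 * a + 2 * A * C2 * a ^ 3 + 2 * A * (C2 * (a * b)) := by ring
  have e13 : a ^ 2 * (-2 * lam * a ^ 2 + C1 * (1 + a)) =
      -2 * lam * a ^ 4 + C1 * a ^ 2 + C1 * a ^ 3 := by ring
  have e14 : 2 * A * C2 * a + (C1 + 2 * A * C2 ^ 2 / lam) * a ^ 2 + (2 * A * C2 + C1) * a ^ 3 =
      2 * A * C2 * a + C1 * a ^ 2 + 2 * A * C2 ^ 2 / lam * a ^ 2 + 2 * A * C2 * a ^ 3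
        + C1 * a ^ 3 := by ring
  have e15 : A * (2 * lam * b ^ 2) = 2 * (lam * A / 2 * b ^ 2) + 2 * (lam * A / 2 * b ^ 2) := by
    ring
  have e16 : 0 ≤ lam * A / 2 * b ^ 2 := by positivity
  linarith

/-! ### The functions `S_k` along a solution -/

/-- `L(D_w u)`. -/
noncomputable def P9a_L (f : E n → ℝ) (x : E n) (w : List (Fin n)) : ℝ :=
  Dw w (Fop f) x - ∑ i, ∑ j, gco f x i j * Dw (i :: j :: w) f x

/-- The gradient of `S_k`. -/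
noncomputable def P9a_d (k : ℕ) (f : E n → ℝ) (x : E n) : E n :=
  ∑ v : Fin k → Fin n, (2 * Dw (List.ofFn v) f x) • gradient (Dw (List.ofFn v) f) x

/-- `L S_k`. -/
noncomputable def P9a_l (k : ℕ) (f : E n → ℝ) (x : E n) : ℝ :=
  ∑ v : Fin k → Fin n, (2 * Dw (List.ofFn v) f x * P9a_L f x (List.ofFn v)
        - 2 * gip (gradient f x) (gradient (Dw (List.ofFn v) f) x)
            (gradient (Dw (List.ofFn v) f) x))

lemma P9a_LJet_Sk {I : Set ℝ} {u : ℝ → E n → ℝ} {t : ℝ} {x : E n} (hu : IsSolOn I univ u)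
    (ht : t ∈ I) (k : ℕ) :
    LJet (gradient (u t) x) I t x (fun s y => Sk k (u s) y) (P9a_d k (u t) x)
      (P9a_l k (u t) x) := by
  have h1 := LJet.sum (p := gradient (u t) x) (I := I) (t := t) (x := x) Finset.univ
    (fun (v : Fin k → Fin n) s y => Dw (List.ofFn v) (u s) y * Dw (List.ofFn v) (u s) y)
    (fun v => Dw (List.ofFn v) (u t) x • gradient (Dw (List.ofFn v) (u t)) x +
      Dw (List.ofFn v) (u t) x • gradient (Dw (List.ofFn v) (u t)) x)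
    (fun v => Dw (List.ofFn v) (u t) x * P9a_L (u t) x (List.ofFn v)
      + Dw (List.ofFn v) (u t) x * P9a_L (u t) x (List.ofFn v)
      - 2 * gip (gradient (u t) x) (gradient (Dw (List.ofFn v) (u t)) x)
            (gradient (Dw (List.ofFn v) (u t)) x))
    (fun v _ => (LJet_Dw hu ht (List.ofFn v)).mul (LJet_Dw hu ht (List.ofFn v)))
  have h2 : (fun s y => Sk k (u s) y) = fun (r : ℝ) (y : E n) =>
      ∑ v : Fin k → Fin n, Dw (List.ofFn v) (u r) y * Dw (List.ofFn v) (u r) y := by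
    funext s y
    unfold Sk
    exact Finset.sum_congr rfl fun v _ => sq _
  rw [h2]
  refine h1.congr ?_ ?_
  · unfold P9a_d
    refine Finset.sum_congr rfl fun v _ => ?_
    rw [← add_smul, two_mul]
  · unfold P9a_l
    refine Finset.sum_congr rfl fun v _ => ?_
    ring

/-! ### Pointwise bounds -/

lemma P9a_abs_le (k : ℕ) (f : E n → ℝ) (x : E n) (v : Fin k → Fin n) :
    |Dw (List.ofFn v) f x| ≤ √(Sk k f x) := by
  refine Real.abs_le_sqrt ?_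
  exact Finset.single_le_sum (f := fun v : Fin k → Fin n => (Dw (List.ofFn v) f x) ^ 2)
    (fun _ _ => sq_nonneg _) (Finset.mem_univ v)

lemma P9a_norm_sq (f : E n → ℝ) (x : E n) (w : List (Fin n)) :
    ‖gradient (Dw w f) x‖ ^ 2 = ∑ i, (Dw (i :: w) f x) ^ 2 := norm_gradient_sq _ _

lemma P9a_sum_norm_sq (k : ℕ) (f : E n → ℝ) (x : E n) :
    ∑ v : Fin k → Fin n, ‖gradient (Dw (List.ofFn v) f) x‖ ^ 2 = Sk (k + 1) f x := by
  rw [← P5b_Sk_succ]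
  exact Finset.sum_congr rfl fun v _ => P9a_norm_sq _ _ _

lemma P9a_grad_le (k : ℕ) (f : E n → ℝ) (x : E n) (v : Fin k → Fin n) :
    ‖gradient (Dw (List.ofFn v) f) x‖ ≤ √(Sk (k + 1) f x) := by
  refine Real.le_sqrt_of_sq_le ?_
  rw [← P9a_sum_norm_sq]
  exact Finset.single_le_sum
    (f := fun v : Fin k → Fin n => ‖gradient (Dw (List.ofFn v) f) x‖ ^ 2)
    (fun _ _ => sq_nonneg _) (Finset.mem_univ v)

/-- Number of words of length `k`. -/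
noncomputable def P9a_N (n k : ℕ) : ℝ := (Finset.univ : Finset (Fin k → Fin n)).card

lemma P9a_N_nonneg (n k : ℕ) : 0 ≤ P9a_N n k := Nat.cast_nonneg _

lemma P9a_Nab_le (k : ℕ) (f : E n → ℝ) (x : E n) :
    Nab k k (jet f x) ≤ P9a_N n k * √(Sk k f x) := by
  unfold Nab
  rw [Finset.Icc_self, Finset.sum_singleton]
  calc ∑ v : Fin k → Fin n, |jet f x (List.ofFn v)| ≤ ∑ _v : Fin k → Fin n, √(Sk k f x) :=
        Finset.sum_le_sum fun v _ => P9a_abs_le k f x v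
    _ = P9a_N n k * √(Sk k f x) := by rw [Finset.sum_const, nsmul_eq_mul]; rfl

lemma P9a_Nab_nonneg (k l : ℕ) (J : Jet n) : 0 ≤ Nab k l J :=
  Finset.sum_nonneg fun _ _ => Finset.sum_nonneg fun _ _ => abs_nonneg _

/-- `L S_k ≤ -2λ S_{k+1} + 2 ∑ |D_w u| |L D_w u|`. -/
lemma P9a_l_le (k : ℕ) (f : E n → ℝ) (x : E n) {lam : ℝ}
    (hlam : lam ≤ (1 + gradSq f x)⁻¹) :
    P9a_l k f x ≤ -2 * lam * Sk (k + 1) f x +
      ∑ v : Fin k → Fin n, 2 * (|Dw (List.ofFn v) f x| * |P9a_L f x (List.ofFn v)|) := by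
  rw [← P9a_sum_norm_sq, Finset.mul_sum, ← Finset.sum_add_distrib]
  refine Finset.sum_le_sum fun v _ => ?_
  have h1 := le_gip_self (gradient f x) (gradient (Dw (List.ofFn v) f) x)
  rw [norm_gradient_sq f x] at h1
  have h2 : lam * ‖gradient (Dw (List.ofFn v) f) x‖ ^ 2 ≤
      (1 + gradSq f x)⁻¹ * ‖gradient (Dw (List.ofFn v) f) x‖ ^ 2 :=
    mul_le_mul_of_nonneg_right hlam (sq_nonneg _)
  have h3 : Dw (List.ofFn v) f x * P9a_L f x (List.ofFn v) ≤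
      |Dw (List.ofFn v) f x| * |P9a_L f x (List.ofFn v)| := by
    rw [← abs_mul]; exact le_abs_self _
  linarith

lemma P9a_norm_d_le (k : ℕ) (f : E n → ℝ) (x : E n) {m : ℝ}
    (hm : ∀ v : Fin k → Fin n, |Dw (List.ofFn v) f x| ≤ m) :
    ‖P9a_d k f x‖ ≤ 2 * P9a_N n k * m * √(Sk (k + 1) f x) := by
  unfold P9a_d
  calc ‖∑ v : Fin k → Fin n, (2 * Dw (List.ofFn v) f x) • gradient (Dw (List.ofFn v) f) x‖
      ≤ ∑ v : Fin k → Fin n, ‖(2 * Dw (List.ofFn v) f x) • gradient (Dw (List.ofFn v) f) x‖ :=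
        norm_sum_le _ _
    _ ≤ ∑ _v : Fin k → Fin n, 2 * m * √(Sk (k + 1) f x) := by
        refine Finset.sum_le_sum fun v _ => ?_
        rw [norm_smul, Real.norm_eq_abs, abs_mul, abs_two]
        refine mul_le_mul (mul_le_mul_of_nonneg_left (hm v) (by norm_num)) (P9a_grad_le k f x v)
          (norm_nonneg _) ?_
        exact mul_nonneg (by norm_num) ((abs_nonneg _).trans (hm v))
    _ = 2 * P9a_N n k * m * √(Sk (k + 1) f x) := by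
        rw [Finset.sum_const, nsmul_eq_mul]; unfold P9a_N; ring

lemma P9a_L_bound2 (v : Fin 2 → Fin n) (M : ℝ) : ∃ C : ℝ, 0 ≤ C ∧ ∀ f : E n → ℝ,
    ContDiff ℝ ∞ f → ∀ x : E n,
      (∀ w : List (Fin n), 1 ≤ w.length → w.length ≤ 2 → |Dw w f x| ≤ M) →
      |P9a_L f x (List.ofFn v)| ≤ C * (1 + √(Sk 3 f x)) := by
  obtain ⟨R, hR, hR'⟩ := Dw_Fop_structure (List.ofFn v)
  rw [List.length_ofFn] at hR
  obtain ⟨C, hC, hC'⟩ := DP_bound hR 1 (by norm_num) M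
  refine ⟨C * (1 + P9a_N n 3), mul_nonneg hC (by linarith [P9a_N_nonneg n 3]),
    fun f hf x hM => ?_⟩
  have h1 : P9a_L f x (List.ofFn v) = R (jet f x) := by
    unfold P9a_L
    rw [hR' univ isOpen_univ f hf.contDiffOn x (mem_univ x)]
    ring
  rw [h1]
  have h2 := hC' (jet f x) (fun w h1 h2 => hM w h1 h2)
  have h3 := P9a_Nab_le 3 f x
  have h4 := P9a_N_nonneg n 3
  have h5 : 0 ≤ √(Sk 3 f x) := Real.sqrt_nonneg _
  calc |R (jet f x)| ≤ C * (1 + Nab 3 3 (jet f x)) := h2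
    _ ≤ C * ((1 + P9a_N n 3) * (1 + √(Sk 3 f x))) :=
        mul_le_mul_of_nonneg_left (by nlinarith) hC
    _ = _ := by ring

lemma P9a_L_bound3 (v : Fin 3 → Fin n) (M : ℝ) : ∃ C : ℝ, 0 ≤ C ∧ ∀ f : E n → ℝ,
    ContDiff ℝ ∞ f → ∀ x : E n,
      (∀ w : List (Fin n), 1 ≤ w.length → w.length ≤ 2 → |Dw w f x| ≤ M) →
      |P9a_L f x (List.ofFn v)| ≤ C * (1 + √(Sk 3 f x) ^ 2 + √(Sk 4 f x)) := by
  obtain ⟨R, hR, hR'⟩ := Dw_Fop_structure (List.ofFn v)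
  rw [List.length_ofFn] at hR
  obtain ⟨C, hC, hC'⟩ := DP_bound4 hR M
  have h4 := P9a_N_nonneg n 3
  have h4' := P9a_N_nonneg n 4
  refine ⟨C * (1 + P9a_N n 3 ^ 2 + P9a_N n 4), mul_nonneg hC (by positivity),
    fun f hf x hM => ?_⟩
  have h1 : P9a_L f x (List.ofFn v) = R (jet f x) := by
    unfold P9a_L
    rw [hR' univ isOpen_univ f hf.contDiffOn x (mem_univ x)]
    ring
  rw [h1]
  have h2 := hC' (jet f x) (fun w h1 h2 => hM w h1 h2)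
  have h3 := P9a_Nab_le 3 f x
  have h3' := P9a_Nab_le 4 f x
  have h5 : 0 ≤ √(Sk 3 f x) := Real.sqrt_nonneg _
  have h5' : 0 ≤ √(Sk 4 f x) := Real.sqrt_nonneg _
  have h6 : (Nab 3 3 (jet f x)) ^ 2 ≤ P9a_N n 3 ^ 2 * √(Sk 3 f x) ^ 2 := by
    rw [← mul_pow]
    exact pow_le_pow_left₀ (P9a_Nab_nonneg _ _ _) h3 2
  have h7 : 0 ≤ P9a_N n 3 ^ 2 := by positivity
  have h8 : 0 ≤ √(Sk 3 f x) ^ 2 := by positivity
  calc |R (jet f x)| ≤ C * (1 + (Nab 3 3 (jet f x)) ^ 2 + Nab 4 4 (jet f x)) := h2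
    _ ≤ C * ((1 + P9a_N n 3 ^ 2 + P9a_N n 4) * (1 + √(Sk 3 f x) ^ 2 + √(Sk 4 f x))) := by
        refine mul_le_mul_of_nonneg_left ?_ hC
        have e1 := mul_nonneg h7 h5'
        have e2 := mul_nonneg h4' h8
        nlinarith
    _ = _ := by ring

/-- All the pointwise bounds together. -/
lemma P9a_bounds (n : ℕ) (M : ℝ) : ∃ C1 C2 C3 : ℝ, 0 ≤ C1 ∧ 0 ≤ C2 ∧ 0 ≤ C3 ∧
    ∀ f : E n → ℝ, ContDiff ℝ ∞ f → ∀ x : E n,
      (∀ w : List (Fin n), 1 ≤ w.length → w.length ≤ 2 → |Dw w f x| ≤ M) →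
      Sk 2 f x ≤ P9a_N n 2 * M ^ 2 ∧
      P9a_l 2 f x ≤ -2 * (1 + n * M ^ 2)⁻¹ * √(Sk 3 f x) ^ 2 + C1 * (1 + √(Sk 3 f x)) ∧
      P9a_l 3 f x ≤ -2 * (1 + n * M ^ 2)⁻¹ * √(Sk 4 f x) ^ 2 +
        C2 * (√(Sk 3 f x) * (1 + √(Sk 3 f x) ^ 2 + √(Sk 4 f x))) ∧
      |gip (gradient f x) (P9a_d 2 f x) (P9a_d 3 f x)| ≤ C3 * (√(Sk 3 f x) ^ 2 * √(Sk 4 f x)) := by
  choose K2 hK2 hK2' using fun v : Fin 2 → Fin n => P9a_L_bound2 v M
  choose K3 hK3 hK3' using fun v : Fin 3 → Fin n => P9a_L_bound3 v M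
  refine ⟨∑ v, 2 * (|M| * K2 v), ∑ v, 2 * K3 v,
    (2 * P9a_N n 2 * |M|) * (2 * P9a_N n 3), ?_, ?_, ?_, ?_⟩
  · exact Finset.sum_nonneg fun v _ => mul_nonneg (by norm_num)
      (mul_nonneg (abs_nonneg _) (hK2 v))
  · exact Finset.sum_nonneg fun v _ => mul_nonneg (by norm_num) (hK3 v)
  · have h1 := P9a_N_nonneg n 2
    have h2 := P9a_N_nonneg n 3
    positivity
  intro f hf x hM
  have hS3 : √(Sk 3 f x) ^ 2 = Sk 3 f x := Real.sq_sqrt (P5b_Sk_nonneg _ _ _)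
  have hS4 : √(Sk 4 f x) ^ 2 = Sk 4 f x := Real.sq_sqrt (P5b_Sk_nonneg _ _ _)
  have hb2 : ∀ v : Fin 2 → Fin n, |Dw (List.ofFn v) f x| ≤ |M| := fun v =>
    (hM (List.ofFn v) (by simp) (by simp)).trans (le_abs_self M)
  have hgrad : gradSq f x ≤ n * M ^ 2 := by
    unfold gradSq
    calc ∑ i, (pd i f x) ^ 2 ≤ ∑ _i : Fin n, M ^ 2 := by
          refine Finset.sum_le_sum fun i _ => ?_
          have := hM [i] (by simp) (by simp)
          exact sq_le_sq.2 (this.trans (le_abs_self M))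
      _ = n * M ^ 2 := by simp
  have hlam : (1 + n * M ^ 2)⁻¹ ≤ (1 + gradSq f x)⁻¹ := by
    have h3 : 0 ≤ gradSq f x := gradSq_nonneg f x
    exact inv_anti₀ (by linarith) (by linarith)
  refine ⟨?_, ?_, ?_, ?_⟩
  · unfold Sk
    calc ∑ v : Fin 2 → Fin n, (Dw (List.ofFn v) f x) ^ 2 ≤ ∑ _v : Fin 2 → Fin n, M ^ 2 :=
          Finset.sum_le_sum fun v _ => sq_le_sq.2 (hb2 v)
      _ = P9a_N n 2 * M ^ 2 := by rw [Finset.sum_const, nsmul_eq_mul]; rfl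
  · refine (P9a_l_le 2 f x hlam).trans ?_
    rw [hS3, Finset.sum_mul]
    refine add_le_add le_rfl (Finset.sum_le_sum fun v _ => ?_)
    have h1 : |Dw (List.ofFn v) f x| * |P9a_L f x (List.ofFn v)| ≤
        |M| * (K2 v * (1 + √(Sk 3 f x))) :=
      mul_le_mul (hb2 v) (hK2' v f hf x hM) (abs_nonneg _) (abs_nonneg _)
    calc 2 * (|Dw (List.ofFn v) f x| * |P9a_L f x (List.ofFn v)|) ≤
        2 * (|M| * (K2 v * (1 + √(Sk 3 f x)))) := by linarith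
      _ = _ := by ring
  · refine (P9a_l_le 3 f x hlam).trans ?_
    rw [hS4, Finset.sum_mul]
    refine add_le_add le_rfl (Finset.sum_le_sum fun v _ => ?_)
    have h1 : |Dw (List.ofFn v) f x| * |P9a_L f x (List.ofFn v)| ≤
        √(Sk 3 f x) * (K3 v * (1 + √(Sk 3 f x) ^ 2 + √(Sk 4 f x))) :=
      mul_le_mul (P9a_abs_le 3 f x v) (hK3' v f hf x hM) (abs_nonneg _) (Real.sqrt_nonneg _)
    calc 2 * (|Dw (List.ofFn v) f x| * |P9a_L f x (List.ofFn v)|) ≤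
        2 * (√(Sk 3 f x) * (K3 v * (1 + √(Sk 3 f x) ^ 2 + √(Sk 4 f x)))) := by linarith
      _ = _ := by rw [hS3]; ring
  · have h1 := P9a_norm_d_le 2 f x hb2
    have h2 := P9a_norm_d_le 3 f x (P9a_abs_le 3 f x)
    calc |gip (gradient f x) (P9a_d 2 f x) (P9a_d 3 f x)| ≤ ‖P9a_d 2 f x‖ * ‖P9a_d 3 f x‖ :=
          abs_gip_le _ _ _
      _ ≤ (2 * P9a_N n 2 * |M| * √(Sk (2 + 1) f x)) *
          (2 * P9a_N n 3 * √(Sk 3 f x) * √(Sk (3 + 1) f x)) :=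
          mul_le_mul h1 h2 (norm_nonneg _) ((norm_nonneg _).trans h1)
      _ = _ := by ring

/-! ### The cut-off function -/

lemma P9a_gip_zero_left (p e : E n) : gip p 0 e = 0 := by simp [gip]

lemma P9a_gip_smul_right (p d e : E n) (c : ℝ) : gip p d (c • e) = c * gip p d e := by
  unfold gip
  rw [inner_smul_right, inner_smul_right]
  ring

lemma P9a_gip_smul_left (p d e : E n) (c : ℝ) : gip p (c • d) e = c * gip p d e := by
  rw [gip_comm, P9a_gip_smul_right, gip_comm]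

lemma P9a_LJet_q (p : E n) (I : Set ℝ) (t : ℝ) (x x₀ : E n) (R : ℝ) :
    LJet p I t x (fun _ y => R ^ 2 - ‖y - x₀‖ ^ 2) ((-2 : ℝ) • (x - x₀))
      (2 * (n - (1 + ‖p‖ ^ 2)⁻¹ * ‖p‖ ^ 2)) := by
  have h1 : LJet p I t x (fun _ _ => R ^ 2) 0 0 :=
    LJet.time (h := fun _ => R ^ 2) (hasDerivWithinAt_const _ _ _)
  have h2 := h1.sub (LJet.sqdist (p := p) (I := I) (t := t) (x := x) x₀)
  refine h2.congr ?_ ?_
  · rw [zero_sub, neg_smul]
  · ring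

lemma P9a_LJet_eta (p : E n) (I : Set ℝ) (t : ℝ) (x x₀ : E n) (R : ℝ) :
    LJet p I t x (fun s y => s * ((R ^ 2 - ‖y - x₀‖ ^ 2) * (R ^ 2 - ‖y - x₀‖ ^ 2)))
      ((t * (-4 * (R ^ 2 - ‖x - x₀‖ ^ 2))) • (x - x₀))
      (t * (4 * (R ^ 2 - ‖x - x₀‖ ^ 2) * (n - (1 + ‖p‖ ^ 2)⁻¹ * ‖p‖ ^ 2)
        - 8 * gip p (x - x₀) (x - x₀)) + (R ^ 2 - ‖x - x₀‖ ^ 2) ^ 2) := by
  have h1 : LJet p I t x (fun s _ => s) 0 1 :=
    LJet.time (h := fun s => s) (hasDerivWithinAt_id _ _)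
  have h2 := (P9a_LJet_q p I t x x₀ R).mul (P9a_LJet_q p I t x x₀ R)
  have h3 := h1.mul h2
  refine h3.congr ?_ ?_
  · simp only [smul_zero, add_zero, smul_smul, ← add_smul]
    congr 1
    ring
  · rw [P9a_gip_zero_left, P9a_gip_smul_left, P9a_gip_smul_right]
    ring

lemma P9a_LJet_Y {I : Set ℝ} {u : ℝ → E n → ℝ} {t : ℝ} {x : E n} (hu : IsSolOn I univ u)
    (ht : t ∈ I) (A : ℝ) :
    LJet (gradient (u t) x) I t x (fun s y => (A + Sk 2 (u s) y) * Sk 3 (u s) y)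
      ((A + Sk 2 (u t) x) • P9a_d 3 (u t) x + Sk 3 (u t) x • P9a_d 2 (u t) x)
      ((A + Sk 2 (u t) x) * P9a_l 3 (u t) x + Sk 3 (u t) x * P9a_l 2 (u t) x
        - 2 * gip (gradient (u t) x) (P9a_d 2 (u t) x) (P9a_d 3 (u t) x)) := by
  have h1 : LJet (gradient (u t) x) I t x (fun _ _ => A) 0 0 :=
    LJet.time (h := fun _ => A) (hasDerivWithinAt_const _ _ _)
  have h2 := (h1.add (P9a_LJet_Sk (x := x) hu ht 2)).mul (P9a_LJet_Sk hu ht 3)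
  refine h2.congr ?_ ?_
  · rw [zero_add]
  · rw [zero_add, zero_add]

theorem third_est (n : ℕ) {R : ℝ} (hR : 0 < R) (M T : ℝ) : ∃ C : ℝ,
    ∀ T' ≤ T, ∀ (u : ℝ → E n → ℝ) (x₀ : E n), IsSolOn (Icc 0 T') univ u →
      (∀ t ∈ Icc 0 T', ∀ x ∈ Metric.closedBall x₀ R, ∀ w : List (Fin n), 1 ≤ w.length →
        w.length ≤ 2 → |Dw w (u t) x| ≤ M) →
      ∀ t ∈ Icc 0 T', t * Sk 3 (u t) x₀ ≤ C := by
  obtain ⟨C1, C2, C3, hC1, hC2, hC3, hb⟩ := P9a_bounds n M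
  have hN2 := P9a_N_nonneg n 2
  obtain ⟨A, hA, c, hc, C, hC, halg⟩ := P9a_algebra (1 + n * M ^ 2)⁻¹ C1 C2 C3
    (P9a_N n 2 * M ^ 2) (by positivity) hC1 hC2 hC3 (by positivity)
  set T0 : ℝ := max T 0 with hT0
  have hT00 : 0 ≤ T0 := le_max_right _ _
  set E0 : ℝ := T0 * (R ^ 2) ^ 2 with hE0
  have hE00 : 0 ≤ E0 := by positivity
  set L0 : ℝ := T0 * (4 * R ^ 2 * n) + (R ^ 2) ^ 2 with hL0
  have hL00 : 0 ≤ L0 := by positivity
  set B0 : ℝ := L0 + 32 * (T0 * R ^ 2) with hB0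
  have hB00 : 0 ≤ B0 := by positivity
  set Z0 : ℝ := 1 + (C * E0 ^ 2 + B0) / c with hZ0
  have hZ01 : 1 ≤ Z0 := by
    have : 0 ≤ (C * E0 ^ 2 + B0) / c := by positivity
    linarith
  refine ⟨Z0 / R ^ 4, fun T' hT' u x₀ hu hM t ht => ?_⟩
  set Z : ℝ → E n → ℝ := fun s y =>
    (s * ((R ^ 2 - ‖y - x₀‖ ^ 2) * (R ^ 2 - ‖y - x₀‖ ^ 2))) *
      ((A + Sk 2 (u s) y) * Sk 3 (u s) y) with hZ
  -- continuity
  have hSk : ∀ k, ContinuousOn (fun p : ℝ × E n => Sk k (u p.1) p.2) (Icc 0 T' ×ˢ univ) := by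
    intro k
    unfold Sk
    exact continuousOn_finsetSum _ fun v _ => (hu.cont (List.ofFn v)).pow 2
  have hZc : ContinuousOn (fun p : ℝ × E n => Z p.1 p.2) (Icc 0 T' ×ˢ univ) := by
    have h1 : Continuous (fun p : ℝ × E n =>
        p.1 * ((R ^ 2 - ‖p.2 - x₀‖ ^ 2) * (R ^ 2 - ‖p.2 - x₀‖ ^ 2))) := by fun_prop
    exact h1.continuousOn.mul ((continuousOn_const.add (hSk 2)).mul (hSk 3))
  have hcomp : IsCompact (Icc 0 T' ×ˢ Metric.closedBall x₀ R) :=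
    isCompact_Icc.prod (isCompact_closedBall x₀ R)
  have hne : (Icc 0 T' ×ˢ Metric.closedBall x₀ R).Nonempty :=
    ⟨(t, x₀), ht, Metric.mem_closedBall_self hR.le⟩
  obtain ⟨⟨t₁, x₁⟩, hmem, hmax⟩ := hcomp.exists_isMaxOn hne
    (hZc.mono (prod_mono le_rfl (subset_univ _)))
  have hmax' : ∀ s ∈ Icc 0 T', ∀ y ∈ Metric.closedBall x₀ R, Z s y ≤ Z t₁ x₁ :=
    fun s hs y hy => hmax (show (s, y) ∈ _ from ⟨hs, hy⟩)
  obtain ⟨ht₁, hx₁⟩ : t₁ ∈ Icc 0 T' ∧ x₁ ∈ Metric.closedBall x₀ R := hmem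
  -- the bound for the maximum
  have key : Z t₁ x₁ ≤ Z0 := by
    by_contra hcon
    push Not at hcon
    have hZ1 : 1 < Z t₁ x₁ := hZ01.trans_lt hcon
    have ht₁0 : 0 < t₁ := by
      rcases ht₁.1.eq_or_lt with h | h
      · exfalso
        have : Z t₁ x₁ = 0 := by simp [hZ, ← h]
        linarith
      · exact h
    have hx₁R : ‖x₁ - x₀‖ < R := by
      rcases (mem_closedBall_iff_norm.1 hx₁).eq_or_lt with h | h
      · exfalso
        have : Z t₁ x₁ = 0 := by simp [hZ, h]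
        linarith
      · exact h
    have ht₁T : t₁ ≤ T0 := (ht₁.2.trans hT').trans (le_max_left _ _)
    have hloc : IsLocalMax (Z t₁) x₁ := by
      have h1 : Metric.ball x₀ R ∈ 𝓝 x₁ :=
        Metric.isOpen_ball.mem_nhds (by rw [mem_ball_iff_norm]; exact hx₁R)
      filter_upwards [h1] with y hy
      exact hmax' t₁ ht₁ y (Metric.ball_subset_closedBall hy)
    have hjet := (P9a_LJet_eta (gradient (u t₁) x₁) (Icc 0 T') t₁ x₁ x₀ R).mul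
      (P9a_LJet_Y (x := x₁) hu ht₁ A)
    obtain ⟨hd, hl⟩ := LJet.max (T := T') ⟨ht₁0, ht₁.2⟩ hjet hloc
      (fun s hs => hmax' s ⟨hs.1, hs.2.trans ht₁.2⟩ x₁ hx₁)
    -- abbreviations
    set p := gradient (u t₁) x₁ with hp
    set q : ℝ := R ^ 2 - ‖x₁ - x₀‖ ^ 2 with hq
    set η : ℝ := t₁ * (q * q) with hη
    set dη : E n := (t₁ * (-4 * q)) • (x₁ - x₀) with hdη
    set lη : ℝ := t₁ * (4 * q * (n - (1 + ‖p‖ ^ 2)⁻¹ * ‖p‖ ^ 2)
        - 8 * gip p (x₁ - x₀) (x₁ - x₀)) + q ^ 2 with hlη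
    set Y : ℝ := (A + Sk 2 (u t₁) x₁) * Sk 3 (u t₁) x₁ with hY
    set dY : E n := (A + Sk 2 (u t₁) x₁) • P9a_d 3 (u t₁) x₁ +
      Sk 3 (u t₁) x₁ • P9a_d 2 (u t₁) x₁ with hdY
    set lY : ℝ := (A + Sk 2 (u t₁) x₁) * P9a_l 3 (u t₁) x₁ + Sk 3 (u t₁) x₁ * P9a_l 2 (u t₁) x₁
        - 2 * gip p (P9a_d 2 (u t₁) x₁) (P9a_d 3 (u t₁) x₁) with hlY
    have hρ : ‖x₁ - x₀‖ ^ 2 ≤ R ^ 2 := pow_le_pow_left₀ (norm_nonneg _) hx₁R.le 2
    have hq0 : 0 < q := by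
      have : ‖x₁ - x₀‖ ^ 2 < R ^ 2 := pow_lt_pow_left₀ hx₁R (norm_nonneg _) (by norm_num)
      linarith
    have hqR : q ≤ R ^ 2 := by
      have := sq_nonneg ‖x₁ - x₀‖
      linarith
    have hη0 : 0 < η := by positivity
    have hηE : η ≤ E0 := by
      calc η = t₁ * q ^ 2 := by rw [hη]; ring
        _ ≤ T0 * (R ^ 2) ^ 2 := mul_le_mul ht₁T (pow_le_pow_left₀ hq0.le hqR 2) (by positivity) hT00
    have hZeq : Z t₁ x₁ = η * Y := rfl
    have hS2 : 0 ≤ Sk 2 (u t₁) x₁ := P5b_Sk_nonneg _ _ _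
    have hS3 : 0 ≤ Sk 3 (u t₁) x₁ := P5b_Sk_nonneg _ _ _
    have hY0 : 0 ≤ Y := mul_nonneg (by linarith) hS3
    -- bound for lY
    have hsm : ContDiff ℝ ∞ (u t₁) := contDiffOn_univ.1 (hu.smooth t₁ ht₁)
    obtain ⟨b1, b2, b3, b4⟩ := hb (u t₁) hsm x₁ (fun w h1 h2 => hM t₁ ht₁ x₁ hx₁ w h1 h2)
    have hs3 : √(Sk 3 (u t₁) x₁) ^ 2 = Sk 3 (u t₁) x₁ := Real.sq_sqrt hS3
    have hlYb : lY ≤ -c * Y ^ 2 + C := by
      have := halg (Sk 2 (u t₁) x₁) (√(Sk 3 (u t₁) x₁)) (√(Sk 4 (u t₁) x₁))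
        (P9a_l 2 (u t₁) x₁) (P9a_l 3 (u t₁) x₁)
        (gip p (P9a_d 2 (u t₁) x₁) (P9a_d 3 (u t₁) x₁)) hS2 b1 (Real.sqrt_nonneg _)
        (Real.sqrt_nonneg _) b2 b3 b4
      rw [hs3] at this
      exact this
    -- bound for lη
    have hgnn : 0 ≤ gip p (x₁ - x₀) (x₁ - x₀) :=
      le_trans (by positivity) (le_gip_self p (x₁ - x₀))
    have hlηb : lη ≤ L0 := by
      have h1 : 0 ≤ (1 + ‖p‖ ^ 2)⁻¹ * ‖p‖ ^ 2 := by positivity
      have h2 : 4 * q * (n - (1 + ‖p‖ ^ 2)⁻¹ * ‖p‖ ^ 2) - 8 * gip p (x₁ - x₀) (x₁ - x₀) ≤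
          4 * R ^ 2 * n := by
        have h3 : 4 * q * (n - (1 + ‖p‖ ^ 2)⁻¹ * ‖p‖ ^ 2) ≤ 4 * q * n :=
          mul_le_mul_of_nonneg_left (by linarith) (by positivity)
        have h4 : 4 * q * n ≤ 4 * R ^ 2 * n :=
          mul_le_mul_of_nonneg_right (by linarith) (Nat.cast_nonneg n)
        linarith
      have h5 : t₁ * (4 * q * (n - (1 + ‖p‖ ^ 2)⁻¹ * ‖p‖ ^ 2) - 8 * gip p (x₁ - x₀) (x₁ - x₀)) ≤
          T0 * (4 * R ^ 2 * n) := by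
        refine (mul_le_mul_of_nonneg_left h2 ht₁0.le).trans ?_
        exact mul_le_mul_of_nonneg_right ht₁T (by positivity)
      have h6 : q ^ 2 ≤ (R ^ 2) ^ 2 := pow_le_pow_left₀ hq0.le hqR 2
      linarith
    -- gip dη dη
    have hgη : gip p dη dη ≤ 16 * (T0 * R ^ 2) * η := by
      rw [hdη, P9a_gip_smul_left, P9a_gip_smul_right]
      have h1 := gip_self_le p (x₁ - x₀)
      have h2 : gip p (x₁ - x₀) (x₁ - x₀) ≤ R ^ 2 := h1.trans hρ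
      calc t₁ * (-4 * q) * (t₁ * (-4 * q) * gip p (x₁ - x₀) (x₁ - x₀)) =
          16 * (t₁ * gip p (x₁ - x₀) (x₁ - x₀)) * η := by rw [hη]; ring
        _ ≤ 16 * (T0 * R ^ 2) * η := by
            refine mul_le_mul_of_nonneg_right ?_ hη0.le
            have h3 : t₁ * gip p (x₁ - x₀) (x₁ - x₀) ≤ T0 * R ^ 2 :=
              mul_le_mul ht₁T h2 hgnn hT00
            linarith
    -- the gradient condition
    have hgrad : η • dY = -(Y • dη) := by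
      have h1 : η • dY + Y • dη = 0 := hd
      exact eq_neg_of_add_eq_zero_left h1
    have hl' : 0 ≤ η * lY + Y * lη - 2 * gip p dη dY := hl
    have h7 : η * (2 * gip p dη dY) = -(2 * (Y * gip p dη dη)) := by
      calc η * (2 * gip p dη dY) = 2 * gip p dη (η • dY) := by
            rw [P9a_gip_smul_right]; ring
        _ = 2 * gip p dη ((-Y) • dη) := by rw [hgrad, neg_smul]
        _ = _ := by rw [P9a_gip_smul_right]; ring
    have h8 : 0 ≤ η * (η * lY + Y * lη - 2 * gip p dη dY) := mul_nonneg hη0.le hl'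
    have h9 : η * (η * lY + Y * lη - 2 * gip p dη dY) =
        η ^ 2 * lY + η * Y * lη - η * (2 * gip p dη dY) := by ring
    rw [h9, h7] at h8
    have h10 : η ^ 2 * lY ≤ η ^ 2 * (-c * Y ^ 2 + C) :=
      mul_le_mul_of_nonneg_left hlYb (by positivity)
    have h11 : η * Y * lη ≤ η * Y * L0 := mul_le_mul_of_nonneg_left hlηb (by positivity)
    have h12 : Y * gip p dη dη ≤ Y * (16 * (T0 * R ^ 2) * η) :=
      mul_le_mul_of_nonneg_left hgη hY0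
    have h13 : c * (η * Y) ^ 2 ≤ C * η ^ 2 + B0 * (η * Y) := by
      have : η ^ 2 * (-c * Y ^ 2 + C) = -(c * (η * Y) ^ 2) + C * η ^ 2 := by ring
      have h14 : B0 * (η * Y) = η * Y * L0 + 2 * (Y * (16 * (T0 * R ^ 2) * η)) := by
        rw [hB0]; ring
      linarith
    rw [hZeq] at hcon hZ1
    have h14 : C * η ^ 2 ≤ C * E0 ^ 2 * (η * Y) := by
      have h15 : C * η ^ 2 ≤ C * E0 ^ 2 :=
        mul_le_mul_of_nonneg_left (pow_le_pow_left₀ hη0.le hηE 2) hC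
      have h16 : C * E0 ^ 2 * 1 ≤ C * E0 ^ 2 * (η * Y) :=
        mul_le_mul_of_nonneg_left hZ1.le (by positivity)
      linarith
    have h17 : c * (η * Y) * (η * Y) ≤ (C * E0 ^ 2 + B0) * (η * Y) := by
      calc c * (η * Y) * (η * Y) = c * (η * Y) ^ 2 := by ring
        _ ≤ C * η ^ 2 + B0 * (η * Y) := h13
        _ ≤ C * E0 ^ 2 * (η * Y) + B0 * (η * Y) := by linarith
        _ = _ := by ring
    have h18 : c * (η * Y) ≤ C * E0 ^ 2 + B0 := le_of_mul_le_mul_right h17 (by linarith)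
    have h19 : η * Y ≤ (C * E0 ^ 2 + B0) / c := by
      rw [le_div_iff₀ hc]; linarith
    linarith
  -- conclusion at `x₀`
  have h1 := (hmax' t ht x₀ (Metric.mem_closedBall_self hR.le)).trans key
  have h2 : Z t x₀ = R ^ 4 * (t * ((A + Sk 2 (u t) x₀) * Sk 3 (u t) x₀)) := by
    simp only [hZ, sub_self, norm_zero]
    ring
  rw [h2] at h1
  have hS2 : 0 ≤ Sk 2 (u t) x₀ := P5b_Sk_nonneg _ _ _
  have hS3 : 0 ≤ Sk 3 (u t) x₀ := P5b_Sk_nonneg _ _ _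
  have h3 : t * Sk 3 (u t) x₀ ≤ t * ((A + Sk 2 (u t) x₀) * Sk 3 (u t) x₀) := by
    refine mul_le_mul_of_nonneg_left ?_ ht.1
    nlinarith
  rw [le_div_iff₀ (by positivity)]
  have h4 : 0 < R ^ 4 := by positivity
  nlinarith

end Pool.Agent.GR
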