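import Pool.Agent.Helper40.GR.PeriodInt
import Pool.Agent.Helper13.GR.P4a
import Pool.Agent.Helper41.GR.DPBounds

/-! # P5b: the static energy inequality (MP_114a94_gt) -/

set_option autoImplicit false

open scoped ContDiff Topology NNReal
open Set Filter MeasureTheory

namespace Pool.Agent.GR

open Pool.Agent.Helper25.GrimReaper

variable {n : ℕ}

/-- The coefficient `gⁱʲ` as a function of the gradient. -/
noncomputable def P5b_phi (i j : Fin n) (p : Fin n → ℝ) : ℝ :=
  (if i = j then 1 else 0) - (1 + ∑ k, (p k) ^ 2)⁻¹ * (p i * p j)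

lemma P5b_phi_contDiff (i j : Fin n) : ContDiff ℝ ∞ (P5b_phi i j) := by
  have h1 : ∀ k : Fin n, ContDiff ℝ ∞ (fun p : Fin n → ℝ => p k) := fun k => contDiff_apply ℝ ℝ k
  unfold P5b_phi
  refine contDiff_const.sub (ContDiff.mul (ContDiff.inv ?_ ?_) ?_)
  · exact contDiff_const.add (ContDiff.sum fun k _ => (h1 k).pow 2)
  · intro p
    have : 0 ≤ ∑ k, (p k) ^ 2 := Finset.sum_nonneg fun _ _ => sq_nonneg _
    positivity
  · exact (h1 i).mul (h1 j)

lemma P5b_phi_eq (v : E n → ℝ) (x : E n) (i j : Fin n) :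
    P5b_phi i j (fun k => jet v x [k]) = gco v x i j := rfl

lemma P5b_DP_gco (i j : Fin n) : DP 0 0 (fun J : Jet n => P5b_phi i j (fun k => J [k])) :=
  DP.base _ (P5b_phi_contDiff i j)

lemma P5b_gco_contDiff {v : E n → ℝ} (hv : ContDiff ℝ ∞ v) (i j : Fin n) :
    ContDiff ℝ ∞ (fun x => gco v x i j) := by
  have h := DP_contDiffOn (P5b_DP_gco i j) isOpen_univ hv.contDiffOn
  rw [contDiffOn_univ] at h
  exact h

lemma P5b_gco_per {P : ℝ} {v : E n → ℝ} (hv : Per P v) (i j : Fin n) :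
    Per P (fun x => gco v x i j) := by
  intro k x
  have h1 : ∀ i, pd i v (x + P • ee k) = pd i v x := fun i => hv.pd i k x
  simp only [gco, gradSq, h1]

/-- Bound for the derivative of the coefficients. -/
lemma P5b_gco_deriv_bound (i j : Fin n) (M : ℝ) : ∃ C : ℝ, 0 ≤ C ∧
    ∀ v : E n → ℝ, ContDiff ℝ ∞ v → ∀ x : E n,
      (∀ w : List (Fin n), w.length ≤ 2 → |Dw w v x| ≤ M) →
      |pd i (fun y => gco v y i j) x| ≤ C := by
  obtain ⟨g, hg, hg'⟩ := DP_pd (P5b_DP_gco i j) i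
  obtain ⟨C, hC, hC'⟩ := DP_bound hg 1 (by norm_num) M
  refine ⟨C, hC, fun v hv x hM => ?_⟩
  have h1 := hg' univ isOpen_univ v hv.contDiffOn x (mem_univ x)
  have h2 : pd i (fun y => gco v y i j) x = g (jet v x) := h1
  rw [h2]
  have h3 := hC' (jet v x) (fun w _ hw => hM w (by omega))
  have h4 : Nab (1 + 2) (0 + 1 + 1) (jet v x) = 0 := by
    unfold Nab
    rw [Finset.Icc_eq_empty (by norm_num), Finset.sum_empty]
  rw [h4] at h3
  simpa using h3

lemma P5b_gco_pos (f : E n → ℝ) (x : E n) (ξ : Fin n → ℝ) :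
    (1 + gradSq f x)⁻¹ * ∑ i, (ξ i) ^ 2 ≤ ∑ i, ∑ j, gco f x i j * ξ j * ξ i := by
  have h1 : ∑ i, ∑ j, gco f x i j * ξ j * ξ i =
      ∑ i, (ξ i) ^ 2 - (1 + gradSq f x)⁻¹ * (∑ i, pd i f x * ξ i) ^ 2 := by
    rw [sq (∑ i, pd i f x * ξ i), Finset.sum_mul_sum, Finset.mul_sum, ← Finset.sum_sub_distrib]
    refine Finset.sum_congr rfl fun i _ => ?_
    rw [Finset.mul_sum]
    have h2 : (ξ i) ^ 2 = ∑ j, (if i = j then (1 : ℝ) else 0) * ξ j * ξ i := by
      simp [sq]
    rw [h2, ← Finset.sum_sub_distrib]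
    refine Finset.sum_congr rfl fun j _ => ?_
    unfold gco
    ring
  have h2 : (∑ i, pd i f x * ξ i) ^ 2 ≤ gradSq f x * ∑ i, (ξ i) ^ 2 := by
    unfold gradSq
    exact Finset.sum_mul_sq_le_sq_mul_sq _ _ _
  have h3 : 0 ≤ gradSq f x := gradSq_nonneg f x
  have h4 : 0 < 1 + gradSq f x := by linarith
  rw [h1]
  have h5 : (1 + gradSq f x)⁻¹ * (∑ i, pd i f x * ξ i) ^ 2 ≤
      (1 + gradSq f x)⁻¹ * (gradSq f x * ∑ i, (ξ i) ^ 2) :=
    mul_le_mul_of_nonneg_left h2 (by positivity)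
  have h6 : ∑ i, (ξ i) ^ 2 = (1 + gradSq f x)⁻¹ * ∑ i, (ξ i) ^ 2 +
      (1 + gradSq f x)⁻¹ * (gradSq f x * ∑ i, (ξ i) ^ 2) := by
    field_simp
  linarith

/-- Sum of absolute values of derivatives of order at most `s`. -/
noncomputable def P5b_A (s : ℕ) (v : E n → ℝ) (x : E n) : ℝ :=
  ∑ k ∈ Finset.range (s + 1), ∑ a : Fin k → Fin n, |Dw (List.ofFn a) v x|

/-- Sum of absolute values of derivatives of order `s + 1`. -/
noncomputable def P5b_B (s : ℕ) (v : E n → ℝ) (x : E n) : ℝ :=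
  ∑ a : Fin (s + 1) → Fin n, |Dw (List.ofFn a) v x|

lemma P5b_A_nonneg (s : ℕ) (v : E n → ℝ) (x : E n) : 0 ≤ P5b_A s v x :=
  Finset.sum_nonneg fun _ _ => Finset.sum_nonneg fun _ _ => abs_nonneg _

lemma P5b_B_nonneg (s : ℕ) (v : E n → ℝ) (x : E n) : 0 ≤ P5b_B s v x :=
  Finset.sum_nonneg fun _ _ => abs_nonneg _

lemma P5b_AB (s : ℕ) (v : E n → ℝ) (x : E n) :
    P5b_A s v x + P5b_B s v x =
      ∑ k ∈ Finset.range (s + 2), ∑ a : Fin k → Fin n, |Dw (List.ofFn a) v x| := by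
  rw [Finset.sum_range_succ _ (s + 1)]; rfl

lemma P5b_word_le (s : ℕ) (v : E n → ℝ) (x : E n) (w : List (Fin n)) (hw : w.length ≤ s + 1) :
    |Dw w v x| ≤ P5b_A s v x + P5b_B s v x := by
  rw [P5b_AB]
  have h1 : w = List.ofFn (fun i => w.get i) := (List.ofFn_get w).symm
  calc |Dw w v x| = |Dw (List.ofFn (fun i => w.get i)) v x| := by rw [← h1]
    _ ≤ ∑ a : Fin w.length → Fin n, |Dw (List.ofFn a) v x| :=
        Finset.single_le_sum (f := fun a : Fin w.length → Fin n => |Dw (List.ofFn a) v x|)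
          (fun a _ => abs_nonneg _) (Finset.mem_univ _)
    _ ≤ _ := Finset.single_le_sum (f := fun k => ∑ a : Fin k → Fin n, |Dw (List.ofFn a) v x|)
          (fun k _ => Finset.sum_nonneg fun a _ => abs_nonneg _)
          (Finset.mem_range.2 (by omega))

lemma P5b_Nab_le (s l k : ℕ) (hk : k ≤ s) (v : E n → ℝ) (x : E n) :
    Nab l (k + 1) (jet v x) ≤ P5b_A s v x + P5b_B s v x := by
  rw [P5b_AB]
  unfold Nab
  refine Finset.sum_le_sum_of_subset_of_nonneg ?_
    (fun _ _ _ => Finset.sum_nonneg fun _ _ => abs_nonneg _)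
  intro m hm
  rw [Finset.mem_Icc] at hm
  rw [Finset.mem_range]
  omega

lemma P5b_A_cont (s : ℕ) {v : E n → ℝ} (hv : ContDiff ℝ ∞ v) : Continuous (P5b_A s v) := by
  unfold P5b_A
  exact continuous_finsetSum _ fun k _ => continuous_finsetSum _ fun a _ =>
    (contDiff_Dw hv _).continuous.abs

lemma P5b_B_cont (s : ℕ) {v : E n → ℝ} (hv : ContDiff ℝ ∞ v) : Continuous (P5b_B s v) := by
  unfold P5b_B
  exact continuous_finsetSum _ fun a _ => (contDiff_Dw hv _).continuous.abs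

/-- The estimate for one word. -/
lemma P5b_word {P : ℝ} (hP : 0 < P) (s : ℕ) (M : ℝ) (w : List (Fin n)) (hw : w.length ≤ s) :
    ∃ C : ℝ, 0 ≤ C ∧ ∀ v : E n → ℝ, ContDiff ℝ ∞ v → Per P v →
      (∀ w : List (Fin n), w.length ≤ s / 2 + 2 → ∀ x, |Dw w v x| ≤ M) →
      Iper P (fun x => Dw w v x * Dw w (Fop v) x) ≤
        Iper P (fun x => C * |Dw w v x| * (1 + (P5b_A s v x + P5b_B s v x))
          - (1 + n * M ^ 2)⁻¹ * ∑ i, (Dw (i :: w) v x) ^ 2) := by
  obtain ⟨R, hR, hR'⟩ := Dw_Fop_structure w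
  obtain ⟨CR, hCR, hCR'⟩ := DP_bound hR (s / 2 + 1) (by omega) M
  choose Cg hCg hCg' using fun i j : Fin n => P5b_gco_deriv_bound i j M
  refine ⟨(∑ i, ∑ j, Cg i j) + CR, add_nonneg (Finset.sum_nonneg fun i _ =>
    Finset.sum_nonneg fun j _ => hCg i j) hCR, fun v hv hper hM => ?_⟩
  -- the vector field
  set h : Fin n → E n → ℝ := fun i x => Dw w v x * ∑ j, gco v x i j * Dw (j :: w) v x with hh
  have hD : ∀ w' : List (Fin n), ContDiff ℝ ∞ (Dw w' v) := fun w' => contDiff_Dw hv w'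
  have hgs : ∀ i j, ContDiff ℝ ∞ (fun x => gco v x i j) := fun i j => P5b_gco_contDiff hv i j
  have hhs : ∀ i, ContDiff ℝ ∞ (h i) := fun i =>
    (hD w).mul (ContDiff.sum fun j _ => (hgs i j).mul (hD (j :: w)))
  have hhp : ∀ i, Per P (h i) := by
    intro i k x
    have h1 : ∀ w' : List (Fin n), Dw w' v (x + P • ee k) = Dw w' v x :=
      fun w' => (hper.Dw w') k x
    have h2 : ∀ j, gco v (x + P • ee k) i j = gco v x i j := fun j => P5b_gco_per hper i j k x
    simp only [hh, h1, h2]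
  have hpdh : ∀ i x, pd i (h i) x = Dw w v x * (∑ j, (gco v x i j * Dw (i :: j :: w) v x
      + Dw (j :: w) v x * pd i (fun y => gco v y i j) x))
      + (∑ j, gco v x i j * Dw (j :: w) v x) * Dw (i :: w) v x := by
    intro i x
    have d1 : ∀ w' : List (Fin n), DifferentiableAt ℝ (Dw w' v) x := fun w' =>
      (hD w').differentiable (by simp) x
    have d2 : ∀ j, DifferentiableAt ℝ (fun x => gco v x i j) x := fun j =>
      (hgs i j).differentiable (by simp) x
    have d3 : ∀ j, DifferentiableAt ℝ (fun x => gco v x i j * Dw (j :: w) v x) x := fun j =>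
      (d2 j).mul (d1 _)
    rw [hh]
    simp only
    rw [pd_mul (d1 w) (DifferentiableAt.fun_sum fun j _ => d3 j), pd_sum (fun j _ => d3 j)]
    congr 1
    congr 1
    refine Finset.sum_congr rfl fun j _ => ?_
    rw [pd_mul (d2 j) (d1 _)]
    rfl
  have hI0 : ∀ i, Iper P (pd i (h i)) = 0 := fun i =>
    Iper_pd hP ((hhs i).of_le (by norm_cast)) (hhp i) i
  -- continuity
  have hRc : Continuous (fun x => R (jet v x)) := by
    have := DP_contDiffOn hR isOpen_univ hv.contDiffOn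
    rw [contDiffOn_univ] at this
    exact this.continuous
  have hF : ∀ x, Dw w (Fop v) x =
      (∑ i, ∑ j, gco v x i j * Dw (i :: j :: w) v x) + R (jet v x) := fun x =>
    hR' univ isOpen_univ v hv.contDiffOn x (mem_univ x)
  have hFc : Continuous (fun x => Dw w v x * Dw w (Fop v) x) := by
    simp only [hF]
    refine (hD w).continuous.mul (Continuous.add ?_ hRc)
    exact continuous_finsetSum _ fun i _ => continuous_finsetSum _ fun j _ =>
      (hgs i j).continuous.mul (hD _).continuous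
  have hpc : ∀ i, Continuous (pd i (h i)) := fun i => (contDiff_pd (hhs i) i).continuous
  have e1 : Iper P (fun x => Dw w v x * Dw w (Fop v) x) =
      Iper P (fun x => Dw w v x * Dw w (Fop v) x + (-1) * ∑ i, pd i (h i) x) := by
    have e2 := Iper_add (P := P) hFc (g := fun x => (-1) * ∑ i, pd i (h i) x)
      (continuous_const.mul (continuous_finsetSum _ fun i _ => hpc i))
    rw [e2, Iper_const_mul, Iper_sum _ (fun i => pd i (h i)) (fun i _ => hpc i)]
    simp [hI0]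
  rw [e1]
  refine Iper_mono ?_ ?_ ?_
  · exact hFc.add (continuous_const.mul (continuous_finsetSum _ fun i _ => hpc i))
  · refine Continuous.sub ?_ ?_
    · exact (continuous_const.mul (hD w).continuous.abs).mul
        (continuous_const.add ((P5b_A_cont s hv).add (P5b_B_cont s hv)))
    · exact continuous_const.mul (continuous_finsetSum _ fun i _ => (hD (i :: w)).continuous.pow 2)
  -- the pointwise estimate
  intro x
  set AB := P5b_A s v x + P5b_B s v x with hAB
  have hAB0 : 0 ≤ AB := add_nonneg (P5b_A_nonneg _ _ _) (P5b_B_nonneg _ _ _)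
  have hpos := P5b_gco_pos v x (fun i => Dw (i :: w) v x)
  have hgrad : gradSq v x ≤ n * M ^ 2 := by
    unfold gradSq
    calc ∑ i, (pd i v x) ^ 2 ≤ ∑ _i : Fin n, M ^ 2 := by
          refine Finset.sum_le_sum fun i _ => ?_
          have := hM [i] (by simp) x
          exact sq_le_sq.2 (this.trans (le_abs_self M))
      _ = n * M ^ 2 := by simp
  have hlam : (1 + n * M ^ 2)⁻¹ * ∑ i, (Dw (i :: w) v x) ^ 2 ≤
      (1 + gradSq v x)⁻¹ * ∑ i, (Dw (i :: w) v x) ^ 2 := by
    have h3 : 0 ≤ gradSq v x := gradSq_nonneg v x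
    refine mul_le_mul_of_nonneg_right ?_ (Finset.sum_nonneg fun _ _ => sq_nonneg _)
    exact inv_anti₀ (by linarith) (by linarith)
  have hRb : |R (jet v x)| ≤ CR * (1 + AB) := by
    refine (hCR' (jet v x) (fun w' _ hw' => hM w' (by omega) x)).trans ?_
    refine mul_le_mul_of_nonneg_left ?_ hCR
    have := P5b_Nab_le s (s / 2 + 1 + 2) w.length hw v x
    linarith
  have hgb : |∑ i, ∑ j, Dw (j :: w) v x * pd i (fun y => gco v y i j) x| ≤
      (∑ i, ∑ j, Cg i j) * AB := by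
    rw [Finset.sum_mul]
    refine (Finset.abs_sum_le_sum_abs _ _).trans (Finset.sum_le_sum fun i _ => ?_)
    rw [Finset.sum_mul]
    refine (Finset.abs_sum_le_sum_abs _ _).trans (Finset.sum_le_sum fun j _ => ?_)
    rw [abs_mul, mul_comm]
    refine mul_le_mul (hCg' i j v hv x (fun w' hw' => hM w' (by omega) x)) ?_ (abs_nonneg _)
      (hCg i j)
    exact P5b_word_le s v x (j :: w) (by simp; omega)
  have hid : Dw w v x * Dw w (Fop v) x + (-1) * ∑ i, pd i (h i) x =
      Dw w v x * R (jet v x)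
        - Dw w v x * (∑ i, ∑ j, Dw (j :: w) v x * pd i (fun y => gco v y i j) x)
        - ∑ i, ∑ j, gco v x i j * Dw (j :: w) v x * Dw (i :: w) v x := by
    have e3 : ∑ i, pd i (h i) x =
        Dw w v x * (∑ i, ∑ j, gco v x i j * Dw (i :: j :: w) v x)
        + Dw w v x * (∑ i, ∑ j, Dw (j :: w) v x * pd i (fun y => gco v y i j) x)
        + ∑ i, ∑ j, gco v x i j * Dw (j :: w) v x * Dw (i :: w) v x := by
      rw [Finset.mul_sum, Finset.mul_sum, ← Finset.sum_add_distrib, ← Finset.sum_add_distrib]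
      refine Finset.sum_congr rfl fun i _ => ?_
      rw [hpdh, Finset.sum_add_distrib, mul_add, Finset.sum_mul]
    rw [e3, hF]
    ring
  rw [hid]
  have t1 : Dw w v x * R (jet v x) ≤ |Dw w v x| * (CR * (1 + AB)) := by
    calc Dw w v x * R (jet v x) ≤ |Dw w v x * R (jet v x)| := le_abs_self _
      _ = |Dw w v x| * |R (jet v x)| := abs_mul _ _
      _ ≤ _ := mul_le_mul_of_nonneg_left hRb (abs_nonneg _)
  have t2 : -(Dw w v x * (∑ i, ∑ j, Dw (j :: w) v x * pd i (fun y => gco v y i j) x)) ≤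
      |Dw w v x| * ((∑ i, ∑ j, Cg i j) * AB) := by
    calc -(Dw w v x * (∑ i, ∑ j, Dw (j :: w) v x * pd i (fun y => gco v y i j) x))
        ≤ |Dw w v x * (∑ i, ∑ j, Dw (j :: w) v x * pd i (fun y => gco v y i j) x)| :=
          neg_le_abs _
      _ = |Dw w v x| * |∑ i, ∑ j, Dw (j :: w) v x * pd i (fun y => gco v y i j) x| :=
          abs_mul _ _
      _ ≤ _ := mul_le_mul_of_nonneg_left hgb (abs_nonneg _)
  have t3 : |Dw w v x| * ((∑ i, ∑ j, Cg i j) * AB) ≤
      |Dw w v x| * ((∑ i, ∑ j, Cg i j) * (1 + AB)) := by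
    refine mul_le_mul_of_nonneg_left (mul_le_mul_of_nonneg_left (by linarith) ?_) (abs_nonneg _)
    exact Finset.sum_nonneg fun i _ => Finset.sum_nonneg fun j _ => hCg i j
  nlinarith [t1, t2, t3, hpos, hlam]

lemma P5b_Sk_succ (s : ℕ) (v : E n → ℝ) (x : E n) :
    ∑ a : Fin s → Fin n, ∑ i, (Dw (i :: List.ofFn a) v x) ^ 2 = Sk (s + 1) v x := by
  unfold Sk
  rw [← (Fin.consEquiv (fun _ : Fin (s + 1) => Fin n)).sum_comp, Fintype.sum_prod_type_right]
  refine Finset.sum_congr rfl fun a _ => Finset.sum_congr rfl fun i _ => ?_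
  congr 2
  simp [Fin.consEquiv, List.ofFn_succ]

lemma P5b_Sk_nonneg (k : ℕ) (v : E n → ℝ) (x : E n) : 0 ≤ Sk k v x :=
  Finset.sum_nonneg fun _ _ => sq_nonneg _

lemma P5b_Sk_cont (k : ℕ) {v : E n → ℝ} (hv : ContDiff ℝ ∞ v) : Continuous (Sk k v) := by
  unfold Sk
  exact continuous_finsetSum _ fun a _ => (contDiff_Dw hv _).continuous.pow 2

/-- Number of words of length at most `s`. -/
noncomputable def P5b_N (n s : ℕ) : ℝ :=
  ((Finset.range (s + 1)).sigma (fun k => (Finset.univ : Finset (Fin k → Fin n)))).card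

lemma P5b_A_sq (s : ℕ) (v : E n → ℝ) (x : E n) :
    (P5b_A s v x) ^ 2 ≤ P5b_N n s * ∑ k ∈ Finset.range (s + 1), Sk k v x := by
  have h1 : P5b_A s v x =
      ∑ p ∈ (Finset.range (s + 1)).sigma (fun k => (Finset.univ : Finset (Fin k → Fin n))),
        |Dw (List.ofFn p.2) v x| := by
    unfold P5b_A
    rw [Finset.sum_sigma]
  have h2 : ∑ k ∈ Finset.range (s + 1), Sk k v x =
      ∑ p ∈ (Finset.range (s + 1)).sigma (fun k => (Finset.univ : Finset (Fin k → Fin n))),
        |Dw (List.ofFn p.2) v x| ^ 2 := by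
    unfold Sk
    rw [Finset.sum_sigma]
    simp only [sq_abs]
  rw [h1, h2]
  exact sq_sum_le_card_mul_sum_sq

lemma P5b_B_sq (s : ℕ) (v : E n → ℝ) (x : E n) :
    (P5b_B s v x) ^ 2 ≤ (Fintype.card (Fin (s + 1) → Fin n) : ℝ) * Sk (s + 1) v x := by
  have h2 : Sk (s + 1) v x = ∑ a : Fin (s + 1) → Fin n, |Dw (List.ofFn a) v x| ^ 2 := by
    unfold Sk; simp only [sq_abs]
  rw [h2]
  exact sq_sum_le_card_mul_sum_sq

theorem energy_static {P : ℝ} (hP : 0 < P) (n s : ℕ) (M : ℝ) : ∃ C : ℝ, 0 ≤ C ∧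
    ∀ v : E n → ℝ, ContDiff ℝ ∞ v → Per P v →
      (∀ w : List (Fin n), w.length ≤ s / 2 + 2 → ∀ x, |Dw w v x| ≤ M) →
      ∑ k ∈ Finset.range (s + 1), ∑ a : Fin k → Fin n,
        Iper P (fun x => Dw (List.ofFn a) v x * Dw (List.ofFn a) (Fop v) x)
          ≤ C * (1 + En P s v) := by
  classical
  -- uniform constant
  obtain ⟨C0, hC0, hC0'⟩ : ∃ C0 : ℝ, 0 ≤ C0 ∧ ∀ w : List (Fin n), w.length ≤ s →
      ∀ v : E n → ℝ, ContDiff ℝ ∞ v → Per P v →
      (∀ w : List (Fin n), w.length ≤ s / 2 + 2 → ∀ x, |Dw w v x| ≤ M) →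
      Iper P (fun x => Dw w v x * Dw w (Fop v) x) ≤
        Iper P (fun x => C0 * |Dw w v x| * (1 + (P5b_A s v x + P5b_B s v x))
          - (1 + n * M ^ 2)⁻¹ * ∑ i, (Dw (i :: w) v x) ^ 2) := by
    have hfin : ({w : List (Fin n) | w.length ≤ s} : Set (List (Fin n))).Finite :=
      List.finite_length_le (Fin n) s
    have hex : ∀ w : List (Fin n), ∃ C : ℝ, 0 ≤ C ∧ (w.length ≤ s →
      ∀ v : E n → ℝ, ContDiff ℝ ∞ v → Per P v →
      (∀ w : List (Fin n), w.length ≤ s / 2 + 2 → ∀ x, |Dw w v x| ≤ M) →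
      Iper P (fun x => Dw w v x * Dw w (Fop v) x) ≤
        Iper P (fun x => C * |Dw w v x| * (1 + (P5b_A s v x + P5b_B s v x))
          - (1 + n * M ^ 2)⁻¹ * ∑ i, (Dw (i :: w) v x) ^ 2)) := by
      intro w
      by_cases hw : w.length ≤ s
      · obtain ⟨C, hC, hC'⟩ := P5b_word hP s M w hw
        exact ⟨C, hC, fun _ => hC'⟩
      · exact ⟨0, le_rfl, fun h => absurd h hw⟩
    choose C hC hC' using hex
    refine ⟨∑ w ∈ hfin.toFinset, C w, Finset.sum_nonneg fun w _ => hC w,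
      fun w hw v hv hper hM => (hC' w hw v hv hper hM).trans ?_⟩
    have hle : C w ≤ ∑ w ∈ hfin.toFinset, C w :=
      Finset.single_le_sum (f := C) (fun w _ => hC w) (by simpa using hw)
    have hD : ∀ w' : List (Fin n), Continuous (Dw w' v) := fun w' =>
      (contDiff_Dw hv w').continuous
    have hcont : ∀ c : ℝ, Continuous (fun x => c * |Dw w v x| *
        (1 + (P5b_A s v x + P5b_B s v x))
        - (1 + n * M ^ 2)⁻¹ * ∑ i, (Dw (i :: w) v x) ^ 2) := fun c =>
      ((continuous_const.mul (hD w).abs).mul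
        (continuous_const.add ((P5b_A_cont s hv).add (P5b_B_cont s hv)))).sub
        (continuous_const.mul (continuous_finsetSum _ fun i _ => (hD (i :: w)).pow 2))
    refine Iper_mono (hcont _) (hcont _) fun x => ?_
    have h1 : 0 ≤ P5b_A s v x + P5b_B s v x :=
      add_nonneg (P5b_A_nonneg _ _ _) (P5b_B_nonneg _ _ _)
    have h2 : C w * |Dw w v x| * (1 + (P5b_A s v x + P5b_B s v x)) ≤
        (∑ w ∈ hfin.toFinset, C w) * |Dw w v x| * (1 + (P5b_A s v x + P5b_B s v x)) :=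
      mul_le_mul_of_nonneg_right (mul_le_mul_of_nonneg_right hle (abs_nonneg _)) (by linarith)
    linarith
  set lam : ℝ := (1 + n * M ^ 2)⁻¹ with hlam
  have hlam0 : 0 < lam := by positivity
  set N' : ℝ := (Fintype.card (Fin (s + 1) → Fin n) : ℝ) with hN'
  have hN'0 : 0 ≤ N' := Nat.cast_nonneg _
  have hN0 : 0 ≤ P5b_N n s := Nat.cast_nonneg _
  set mu : ℝ := lam / (N' + 1) with hmu
  have hmu0 : 0 < mu := by positivity
  set K : ℝ := 2 * C0 + C0 ^ 2 / (4 * mu) with hK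
  have hK0 : 0 ≤ K := by positivity
  set C2 : ℝ := C0 + K * P5b_N n s with hC2
  have hC20 : 0 ≤ C2 := by positivity
  have hPn : (0 : ℝ) < P ^ n := by positivity
  refine ⟨C2 * (P ^ n + 1), by positivity, fun v hv hper hM => ?_⟩
  have hD : ∀ w' : List (Fin n), Continuous (Dw w' v) := fun w' =>
    (contDiff_Dw hv w').continuous
  have hTc : Continuous (fun x => ∑ k ∈ Finset.range (s + 1), Sk k v x) :=
    continuous_finsetSum _ fun k _ => P5b_Sk_cont k hv
  set G : List (Fin n) → E n → ℝ := fun w x =>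
    C0 * |Dw w v x| * (1 + (P5b_A s v x + P5b_B s v x)) - lam * ∑ i, (Dw (i :: w) v x) ^ 2
    with hG
  have hGc : ∀ w, Continuous (G w) := fun w =>
    ((continuous_const.mul (hD w).abs).mul
      (continuous_const.add ((P5b_A_cont s hv).add (P5b_B_cont s hv)))).sub
      (continuous_const.mul (continuous_finsetSum _ fun i _ => (hD (i :: w)).pow 2))
  have step1 : ∑ k ∈ Finset.range (s + 1), ∑ a : Fin k → Fin n,
        Iper P (fun x => Dw (List.ofFn a) v x * Dw (List.ofFn a) (Fop v) x) ≤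
      ∑ k ∈ Finset.range (s + 1), ∑ a : Fin k → Fin n, Iper P (G (List.ofFn a)) := by
    refine Finset.sum_le_sum fun k hk => Finset.sum_le_sum fun a _ => ?_
    exact hC0' (List.ofFn a) (by simp; rw [Finset.mem_range] at hk; omega) v hv hper hM
  have step2 : ∑ k ∈ Finset.range (s + 1), ∑ a : Fin k → Fin n, Iper P (G (List.ofFn a)) =
      Iper P (fun x => ∑ k ∈ Finset.range (s + 1), ∑ a : Fin k → Fin n, G (List.ofFn a) x) := by
    rw [Iper_sum _ _ fun k _ => continuous_finsetSum _ fun a _ => hGc _]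
    refine Finset.sum_congr rfl fun k _ => ?_
    rw [Iper_sum _ _ fun a _ => hGc _]
  have step3 : Iper P (fun x => ∑ k ∈ Finset.range (s + 1), ∑ a : Fin k → Fin n,
      G (List.ofFn a) x) ≤
      Iper P (fun x => C2 * (1 + ∑ k ∈ Finset.range (s + 1), Sk k v x)) := by
    refine Iper_mono (continuous_finsetSum _ fun k _ => continuous_finsetSum _ fun a _ => hGc _)
      (continuous_const.mul (continuous_const.add hTc)) fun x => ?_
    set A := P5b_A s v x with hA
    set B := P5b_B s v x with hB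
    set T := ∑ k ∈ Finset.range (s + 1), Sk k v x with hT
    have hA0 : 0 ≤ A := P5b_A_nonneg _ _ _
    have hB0 : 0 ≤ B := P5b_B_nonneg _ _ _
    have hT0 : 0 ≤ T := Finset.sum_nonneg fun _ _ => P5b_Sk_nonneg _ _ _
    have hS0 : 0 ≤ Sk (s + 1) v x := P5b_Sk_nonneg _ _ _
    have hAs : A ^ 2 ≤ P5b_N n s * T := P5b_A_sq s v x
    have hBs : B ^ 2 ≤ N' * Sk (s + 1) v x := P5b_B_sq s v x
    have e1 : ∑ k ∈ Finset.range (s + 1), ∑ a : Fin k → Fin n, G (List.ofFn a) x =
        C0 * A * (1 + (A + B)) - lam * ∑ k ∈ Finset.range (s + 1), ∑ a : Fin k → Fin n,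
          ∑ i, (Dw (i :: List.ofFn a) v x) ^ 2 := by
      simp only [hG, Finset.sum_sub_distrib, ← Finset.mul_sum, ← Finset.sum_mul]
      rfl
    have e2 : Sk (s + 1) v x ≤ ∑ k ∈ Finset.range (s + 1), ∑ a : Fin k → Fin n,
          ∑ i, (Dw (i :: List.ofFn a) v x) ^ 2 := by
      rw [← P5b_Sk_succ]
      exact Finset.single_le_sum (f := fun k => ∑ a : Fin k → Fin n,
          ∑ i, (Dw (i :: List.ofFn a) v x) ^ 2)
        (fun k _ => Finset.sum_nonneg fun a _ => Finset.sum_nonneg fun i _ => sq_nonneg _)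
        (Finset.mem_range.2 (by omega))
    have e3 : lam * Sk (s + 1) v x ≤ lam * ∑ k ∈ Finset.range (s + 1), ∑ a : Fin k → Fin n,
          ∑ i, (Dw (i :: List.ofFn a) v x) ^ 2 := mul_le_mul_of_nonneg_left e2 hlam0.le
    have e4 : C0 * A * B ≤ mu * B ^ 2 + C0 ^ 2 / (4 * mu) * A ^ 2 := by
      have h1 : 0 ≤ (2 * mu * B - C0 * A) ^ 2 := sq_nonneg _
      have h2 : mu * B ^ 2 + C0 ^ 2 / (4 * mu) * A ^ 2 - C0 * A * B =
          (2 * mu * B - C0 * A) ^ 2 / (4 * mu) := by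
        field_simp
        ring
      have h3 : 0 ≤ (2 * mu * B - C0 * A) ^ 2 / (4 * mu) := by positivity
      linarith
    have e5 : mu * B ^ 2 ≤ lam * Sk (s + 1) v x := by
      calc mu * B ^ 2 ≤ mu * (N' * Sk (s + 1) v x) := mul_le_mul_of_nonneg_left hBs hmu0.le
        _ ≤ mu * ((N' + 1) * Sk (s + 1) v x) := by
            refine mul_le_mul_of_nonneg_left ?_ hmu0.le
            nlinarith
        _ = lam * Sk (s + 1) v x := by rw [hmu]; field_simp
    have e6 : C0 * A ≤ C0 * (1 + A ^ 2) := by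
      refine mul_le_mul_of_nonneg_left ?_ hC0
      nlinarith [sq_nonneg (A - 1)]
    have e7 : K * A ^ 2 ≤ K * (P5b_N n s * T) := mul_le_mul_of_nonneg_left hAs hK0
    have e8 : 0 ≤ C0 * T := mul_nonneg hC0 hT0
    have e9 : 0 ≤ K * P5b_N n s := mul_nonneg hK0 hN0
    rw [e1, hC2]
    have e10 : K * A ^ 2 = 2 * (C0 * A ^ 2) + C0 ^ 2 / (4 * mu) * A ^ 2 := by rw [hK]; ring
    have e11 : C0 * A * (1 + (A + B)) = C0 * A + C0 * A ^ 2 + C0 * A * B := by ring
    have e12 : (C0 + K * P5b_N n s) * (1 + T) =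
        C0 + C0 * T + K * P5b_N n s + K * (P5b_N n s * T) := by ring
    have e13 : C0 * (1 + A ^ 2) = C0 + C0 * A ^ 2 := by ring
    rw [e11, e12]
    linarith
  have step4 : Iper P (fun x => C2 * (1 + ∑ k ∈ Finset.range (s + 1), Sk k v x)) =
      C2 * (Iper P (fun _ : E n => (1 : ℝ)) + En P s v) := by
    rw [Iper_const_mul, Iper_add continuous_const hTc,
      Iper_sum _ (fun k => Sk k v) (fun k _ => P5b_Sk_cont k hv)]
    rfl
  have step5 : Iper P (fun _ : E n => (1 : ℝ)) ≤ P ^ n := by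
    have := Iper_abs_le (n := n) hP (f := fun _ : E n => (1 : ℝ)) (B := 1) (by simp)
    rw [mul_one] at this
    exact (le_abs_self _).trans this
  have hEn0 : 0 ≤ En P s v := by
    have h1 : Iper P (fun _ : E n => (0 : ℝ)) ≤
        Iper P (fun x => ∑ k ∈ Finset.range (s + 1), Sk k v x) :=
      Iper_mono continuous_const hTc fun x => Finset.sum_nonneg fun _ _ => P5b_Sk_nonneg _ _ _
    rw [Iper_sum _ (fun k => Sk k v) (fun k _ => P5b_Sk_cont k hv)] at h1
    have h2 : Iper P (fun _ : E n => (0 : ℝ)) = 0 := by simp [Iper]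
    rw [h2] at h1
    exact h1
  calc _ ≤ _ := step1
    _ = _ := step2
    _ ≤ _ := step3
    _ = _ := step4
    _ ≤ C2 * (P ^ n + En P s v) := mul_le_mul_of_nonneg_left (by linarith) hC20
    _ ≤ C2 * ((P ^ n + 1) * (1 + En P s v)) :=
        mul_le_mul_of_nonneg_left (by nlinarith [mul_nonneg hPn.le hEn0]) hC20
    _ = _ := by ring

end Pool.Agent.GR
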